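import Mathlib

set_option autoImplicit false

namespace Pool.Agent.Results.MP_95765a_co.AllDigraphs
open Finset

/-- `f` is a set-indexer of the digraph with arc relation `A`: `f` is injective and so is the arc
function `(u,v) ↦ f u \ f v`. -/
def IsSetIndexer {V X : Type} [DecidableEq X] (A : V → V → Prop) (f : V → Finset X) : Prop :=
  Function.Injective f ∧
    ∀ u v u' v', A u v → A u' v' → f u \ f v = f u' \ f v' → u = u' ∧ v = v'

def ArcBinding {V X : Type} [DecidableEq X] (A : V → V → Prop) (f : V → Finset X) : Prop :=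
  ∀ u v, A u v → (f u \ f v).card < (f v).card

theorem result (V : Type) [Fintype V] (A : V → V → Prop) (hA : ∀ v, ¬ A v v) :
    ∃ (X : Type) (_ : Fintype X) (_ : Nonempty X) (_ : DecidableEq X) (f : V → Finset X),
      IsSetIndexer A f ∧ ArcBinding A f ∧
      ∀ u v, A u v → (f u \ f v).card = min (f u).card ((f v).card - 1) := by
  classical
  let f : V → Finset (Option (Sym2 V)) := fun u => univ.image fun w => some s(u, w)
  have hm : ∀ u a b, some s(a, b) ∈ f u ↔ u = a ∨ u = b := by
    intro u a b
    simp only [f, mem_image, mem_univ, true_and, Option.some.injEq, Sym2.eq_iff]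
    constructor
    · rintro ⟨w, h | h⟩ <;> tauto
    · rintro (h | h)
      · exact ⟨b, Or.inl ⟨h, rfl⟩⟩
      · exact ⟨a, Or.inr ⟨h, rfl⟩⟩
  have hc : ∀ u, (f u).card = Fintype.card V := by
    intro u
    rw [card_image_of_injective, card_univ]
    intro a b h
    exact Sym2.congr_right.1 (Option.some.inj h)
  have hd : ∀ u v, u ≠ v → f u \ f v = (f u).erase (some s(u, v)) := by
    intro u v h
    ext x
    simp only [mem_sdiff, mem_erase]
    constructor
    · rintro ⟨h1, h2⟩
      exact ⟨fun e => h2 (e ▸ (hm _ _ _).2 (Or.inr rfl)), h1⟩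
    · rintro ⟨h1, h2⟩
      refine ⟨h2, fun h3 => h1 ?_⟩
      obtain ⟨w, -, rfl⟩ := mem_image.1 h2
      rcases (hm _ _ _).1 h3 with e | e
      · exact absurd e.symm h
      · rw [e]
  have hcd : ∀ u v, A u v → (f u \ f v).card = Fintype.card V - 1 := by
    intro u v h
    have huv : u ≠ v := fun e => hA u (e ▸ h)
    rw [hd u v huv, card_erase_of_mem ((hm _ _ _).2 (Or.inl rfl)), hc]
  refine ⟨Option (Sym2 V), inferInstance, inferInstance, inferInstance, f, ⟨?_, ?_⟩, ?_, ?_⟩
  · intro u v h
    have := (hm u u u).2 (Or.inl rfl)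
    rw [h, hm] at this
    tauto
  · intro u v u' v' h h' e
    have huv : u ≠ v := fun e => hA u (e ▸ h)
    have huv' : u' ≠ v' := fun e => hA u' (e ▸ h')
    have h1 : some s(u, u) ∈ f u \ f v := by
      rw [mem_sdiff, hm, hm]; tauto
    rw [e, mem_sdiff, hm] at h1
    obtain rfl : u' = u := by tauto
    refine ⟨rfl, ?_⟩
    by_contra hv
    have h2 : some s(u', v') ∈ f u' \ f v := by
      rw [mem_sdiff, hm, hm]; tauto
    rw [e, mem_sdiff, hm, hm] at h2
    tauto
  · intro u v h
    have : 0 < Fintype.card V := Fintype.card_pos_iff.2 ⟨u⟩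
    rw [hcd u v h, hc]; omega
  · intro u v h
    rw [hcd u v h, hc, hc]; omega

end Pool.Agent.Results.MP_95765a_co.AllDigraphs
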